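import Pool.Agent.Helper45.FG.St

/-!
# Project FG, module FCH: characters are dominated by the positive character
-/

set_option autoImplicit false

namespace Pool.Agent.Helper42.FG

open Pool.Agent.Helper45.FG

theorem hFCH : StFCH := by
  intro I _ R d hd χ hχ i
  obtain ⟨j0, -, hj0⟩ := Finset.exists_max_image Finset.univ (fun j => ‖χ j‖ / d j)
    ⟨R.one, Finset.mem_univ _⟩
  by_cases h0 : χ j0 = 0
  · have h := hj0 i (Finset.mem_univ i)
    simp only [h0, norm_zero, zero_div] at h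
    have h2 : ‖χ i‖ ≤ 0 := by
      have := (div_le_iff₀ (hd.pos i)).1 h
      simpa using this
    exact h2.trans (hd.pos i).le
  · have hp : 0 < ‖χ j0‖ := norm_pos_iff.2 h0
    have hd0 : d j0 ≠ 0 := (hd.pos j0).ne'
    have hk : ∀ k, ‖χ k‖ ≤ ‖χ j0‖ / d j0 * d k :=
      fun k => (div_le_iff₀ (hd.pos k)).1 (hj0 k (Finset.mem_univ k))
    have h1 : ‖χ i‖ * ‖χ j0‖ ≤ d i * ‖χ j0‖ := by
      calc ‖χ i‖ * ‖χ j0‖ = ‖∑ k, (R.N i j0 k : ℂ) * χ k‖ := by rw [← norm_mul, hχ]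
        _ ≤ ∑ k, ‖(R.N i j0 k : ℂ) * χ k‖ := norm_sum_le _ _
        _ = ∑ k, (R.N i j0 k : ℝ) * ‖χ k‖ := by
            refine Finset.sum_congr rfl fun k _ => ?_
            rw [norm_mul, Complex.norm_natCast]
        _ ≤ ∑ k, (R.N i j0 k : ℝ) * (‖χ j0‖ / d j0 * d k) :=
            Finset.sum_le_sum fun k _ => mul_le_mul_of_nonneg_left (hk k) (Nat.cast_nonneg _)
        _ = ‖χ j0‖ / d j0 * ∑ k, (R.N i j0 k : ℝ) * d k := by
            rw [Finset.mul_sum]
            exact Finset.sum_congr rfl fun k _ => by ring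
        _ = ‖χ j0‖ / d j0 * (d i * d j0) := by rw [← hd.mul]
        _ = d i * ‖χ j0‖ := by field_simp
    exact le_of_mul_le_mul_right h1 hp

end Pool.Agent.Helper42.FG
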